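import Pool.Agent.Helper70.KN.Goals

/-!
# Project KN: positivity of the cylinder volumes (packet PO)
-/

open MeasureTheory Set

namespace Pool.Agent.Helper2.KN.PO

open Pool.Agent.Helper70.KN

/-- Every point of the Newton polyhedron has coordinate sum at least `c`. -/
lemma sum_ge {N : ℕ} {V : Finset (Fin N → ℕ)} {c : ℝ} (hT : Thick V c) {z : Fin N → ℝ} (hz : z ∈ newton V) :
    c ≤ ∑ j, z j := by
  obtain ⟨-, -, h0, hc⟩ := hT
  obtain ⟨y, hy, hyz⟩ := hz
  have hconv : Convex ℝ {y : Fin N → ℝ | c ≤ ∑ j, y j} := by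
    intro a ha b hb s t hs ht hst
    have ha' : c ≤ ∑ j, a j := ha
    have hb' : c ≤ ∑ j, b j := hb
    have h1 := mul_le_mul_of_nonneg_left ha' hs
    have h2 := mul_le_mul_of_nonneg_left hb' ht
    have h3 : s * c + t * c = c := by rw [← add_mul, hst, one_mul]
    show c ≤ ∑ j, (s • a + t • b) j
    simp only [Pi.add_apply, Pi.smul_apply, smul_eq_mul, Finset.sum_add_distrib, ← Finset.mul_sum]
    linarith
  have hsub : (fun (v : Fin N → ℕ) (i : Fin N) => (v i : ℝ)) '' (V : Set (Fin N → ℕ)) ⊆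
      {y : Fin N → ℝ | c ≤ ∑ j, y j} := by
    rintro _ ⟨v, hv, rfl⟩
    have hv0 : v ≠ 0 := fun h => h0 (h ▸ hv)
    obtain ⟨i, hi⟩ : ∃ i, v i ≠ 0 := by
      by_contra hcon
      push Not at hcon
      exact hv0 (funext hcon)
    refine (hc v hv i hi).trans ?_
    exact Finset.single_le_sum (f := fun j => (v j : ℝ)) (fun j _ => Nat.cast_nonneg _) (Finset.mem_univ i)
  have h1 : c ≤ ∑ j, y j := convexHull_min hsub hconv hy
  exact h1.trans (Finset.sum_le_sum fun j _ => hyz j)

theorem t (hMF : S_MF) : S_PO := by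
  intro N V c hT J
  have hc : 0 < c := hT.2.1
  set ε : ℝ := min 1 (c / (N + 1)) with hε
  have hε0 : 0 < ε := lt_min one_pos (by positivity)
  have hbox : Set.pi univ (fun _ : Fin N => Ioo (0 : ℝ) ε) ⊆ cyl V J := by
    intro x hx
    have hx' : ∀ i, 0 < x i ∧ x i < ε := fun i => hx i (mem_univ i)
    refine ⟨fun i => (hx' i).1.le, fun j _ => (hx' j).2.trans_le (min_le_left _ _), fun hmem => ?_⟩
    have h1 := sum_ge hT hmem
    have h2 : ∑ j, zr J x j ≤ ∑ _j : Fin N, ε := by
      refine Finset.sum_le_sum fun j _ => ?_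
      unfold zr
      split_ifs
      · exact hε0.le
      · exact (hx' j).2.le
    rw [Finset.sum_const, Finset.card_univ, Fintype.card_fin, nsmul_eq_mul] at h2
    have h3 : (N : ℝ) * ε ≤ N * (c / (N + 1)) := mul_le_mul_of_nonneg_left (min_le_right _ _) (Nat.cast_nonneg _)
    have h4 : (N : ℝ) * (c / (N + 1)) < c := by
      rw [mul_div_assoc', div_lt_iff₀ (by positivity)]
      nlinarith
    linarith
  have hopen : IsOpen (Set.pi univ (fun _ : Fin N => Ioo (0 : ℝ) ε)) := isOpen_set_pi finite_univ fun _ _ => isOpen_Ioo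
  have hne : (Set.pi univ (fun _ : Fin N => Ioo (0 : ℝ) ε)).Nonempty :=
    ⟨fun _ => ε / 2, fun _ _ => ⟨by positivity, by linarith⟩⟩
  have hpos : 0 < volume (cyl V J) := (hopen.measure_pos volume hne).trans_le (measure_mono hbox)
  exact ENNReal.toReal_pos hpos.ne' (hMF N V hT.1 J).2.1

end Pool.Agent.Helper2.KN.PO
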